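import Pool.Agent.Helper197.Ess.Final

set_option autoImplicit false
open Metric

namespace Pool.Agent.Results.MP_246dfd_an.EssentialSpectrumDisc

/-- The Hardy space `H²` of the unit disc: square-summable sequences of Taylor coefficients. -/
abbrev H2 : Type := ↥(lp (fun _ : ℕ => ℂ) 2)

/-- The bounded linear operators on `H²`. -/
abbrev Op : Type := H2 →L[ℂ] H2

/-- The value at `z` of the function whose Taylor coefficients are `a`. -/
noncomputable def val (a : H2) (z : ℂ) : ℂ := ∑' n : ℕ, a n * z ^ n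

/-- `T` is the composition operator `f ↦ f ∘ φ` on the Hardy space. -/
def IsComposition (φ : ℂ → ℂ) (T : Op) : Prop :=
  ∀ a : H2, ∀ z ∈ ball (0 : ℂ) 1, val (T a) z = val a (φ z)

/-- `(T - μ) f`. -/
noncomputable def sub (T : Op) (μ : ℂ) (f : H2) : H2 := T f - μ • f

/-- The spectrum of `T`: the `μ` for which `T - μ` has no inverse among the bounded operators. -/
def spec (T : Op) : Set ℂ :=
  {μ | ¬ ∃ S : Op, ∀ f : H2, S (sub T μ f) = f ∧ sub T μ (S f) = f}

/-- The essential spectrum of `T`: the `μ` for which `T - μ` has no inverse modulo the compact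
operators, i.e. its class in the Calkin algebra is not invertible. -/
def essSpec (T : Op) : Set ℂ :=
  {μ | ¬ ∃ S : Op, IsCompactOperator (fun f : H2 => S (sub T μ f) - f) ∧
    IsCompactOperator (fun f : H2 => sub T μ (S f) - f)}

/-- `spec` is Mathlib's `spectrum`. -/
theorem spec_eq (T : Op) : spec T = spectrum ℂ T := by
  ext μ
  have hsub : ∀ f : H2, sub T μ f = (T - μ • (1 : Op)) f := fun f => by
    simp [sub]
  change ¬ _ ↔ ¬ IsUnit ((algebraMap ℂ Op) μ - T)
  rw [← IsUnit.neg_iff, neg_sub, Algebra.algebraMap_eq_smul_one]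
  apply not_congr
  constructor
  · rintro ⟨S, hS⟩
    refine ⟨⟨T - μ • (1 : Op), S, ?_, ?_⟩, rfl⟩
    · ext1 f
      have := (hS f).2
      rwa [hsub] at this
    · ext1 f
      have := (hS f).1
      rwa [hsub] at this
  · rintro ⟨u, hu⟩
    refine ⟨(↑u⁻¹ : Op), fun f => ?_⟩
    rw [hsub, hsub, ← hu]
    constructor
    · have := u.inv_mul
      exact congrArg (fun A : Op => A f) this
    · have := u.mul_inv
      exact congrArg (fun A : Op => A f) this

/-- **Bourdon's question, answered yes.** Let `φ` be an analytic selfmap of the unit disc that is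
not an automorphism (not a bijection of the disc) and fixes the point `ω` of the disc. The
composition operator `C_φ` exists on `H²`, is unique, and whenever, for some `r ≥ 0`, its spectrum
is the closed disc of radius `r` together with the powers `φ'(ω)^n`, `n ≥ 1`, and `1`, its
essential spectrum is exactly that closed disc. -/
theorem result (φ : ℂ → ℂ)
    (hφ : DifferentiableOn ℂ φ (ball (0 : ℂ) 1))
    (hmaps : Set.MapsTo φ (ball (0 : ℂ) 1) (ball (0 : ℂ) 1))
    (hna : ¬ Set.BijOn φ (ball (0 : ℂ) 1) (ball (0 : ℂ) 1))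
    (ω : ℂ) (hω : ω ∈ ball (0 : ℂ) 1) (hfix : φ ω = ω) :
    ∃ T : Op, IsComposition φ T ∧ (∀ T' : Op, IsComposition φ T' → T' = T) ∧
      ∀ r : ℝ, 0 ≤ r →
        spec T = closedBall 0 r ∪ {μ | ∃ n : ℕ, 1 ≤ n ∧ μ = (deriv φ ω) ^ n} ∪ {1} →
        essSpec T = closedBall 0 r := by
  obtain ⟨T, hT⟩ := Pool.Agent.Helper203.Hardy.exists_comp hφ hmaps
  have hT' : ∀ (a : Pool.Agent.Helper76.Hardy.HH) (z : ℂ), ‖z‖ < 1 →
      Pool.Agent.Helper76.Hardy.ev (T a) z = Pool.Agent.Helper76.Hardy.ev a (φ z) := by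
    intro a z hz
    exact hT a z (by simpa using hz)
  obtain ⟨-, h2⟩ := Pool.Agent.Helper197.Ess.q1 φ hφ hmaps hna ω hω hfix T hT'
  refine ⟨T, hT, ?_, ?_⟩
  · intro T' hTT
    ext1 a
    apply Pool.Agent.Helper203.Hardy.ev_injective
    intro z hz
    exact (hTT a z hz).trans (hT a z hz).symm
  · intro r hr hspec
    rw [spec_eq] at hspec
    have h3 := h2 r hr hspec
    rw [← h3]
    rfl

end Pool.Agent.Results.MP_246dfd_an.EssentialSpectrumDisc
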