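import Mathlib
import Pool.Agent.Helper156.Ess.Conj

set_option autoImplicit false

open Complex Metric Set
open scoped Topology

/-!
# The essential spectrum of a composition operator with an interior fixed point is a disc

Setting of the problem: `U` is the open unit disc `Metric.ball (0 : ℂ) 1`, `φ : U → U` is analytic,
is not a conformal automorphism of `U`, and fixes `ω ∈ U`.

Sketch of the proof for `ω = 0`.  Suppose that `C - l` is Fredholm, `0 < |l| < 1`, `l` not a power of
`φ'(0)`.  Take `k + 1` points `w_i` in a small hyperbolic disc near the circle, separated, where `k` is the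
codimension of the range of `l - C`.  The test functions are normalised reproducing kernels at the points
`w_i` times `z^N`, times the Blaschke factors of the forward orbits of the `w_i`, times the functions
`b_{w_i} ∘ φ^[j]`, `1 ≤ j ≤ n`.  If `(l - C) u` is a combination of them then `u` is constant on the fibre
of `φ^[n]` over one of the points `w_i`, which bounds the Nevanlinna counting function of `φ^[n]` at `w_i` by
`const * |l|^(2n) * (1 - |w_i|)`.  The sub-mean value property of counting functions spreads this bound to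
all points near the circle, and the Littlewood-Paley formula turns it into
`‖C^n f‖ ≤ const * |l|^n * ‖f‖` on `z^M H²`.  So `C - μ` is Fredholm of index zero for all `|μ| > |l|`.
-/

namespace Pool.Agent.Results.MP_246dfd_an.SpectraAreDiscs

/-- The Hardy space `H²` of the unit disc: the Hilbert space of square summable sequences of Taylor
coefficients. -/
def H2 : Type := lp (fun _ : ℕ => ℂ) 2

/-- The `ℓ²` norm. -/
noncomputable instance : NormedAddCommGroup H2 :=
  @lp.normedAddCommGroup ℕ (fun _ => ℂ) 2 _ _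

/-- The pointwise scalar multiplication. -/
noncomputable instance : NormedSpace ℂ H2 :=
  @lp.instNormedSpace ℂ ℕ (fun _ => ℂ) 2 _ _ _ _

/-- The `n`-th Taylor coefficient. -/
def H2.coeff (f : H2) (n : ℕ) : ℂ := (show lp (fun _ : ℕ => ℂ) 2 from f) n

/-- The analytic function on the unit disc with Taylor coefficients `f`. -/
noncomputable def val (f : H2) (z : ℂ) : ℂ := ∑' n : ℕ, f.coeff n * z ^ n

/-- Bounded linear operators on a complex normed space. -/
abbrev Op (E : Type) [NormedAddCommGroup E] [NormedSpace ℂ E] : Type := E →L[ℂ] E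

/-- The bounded operator `C` on `H²` is the composition operator `f ↦ f ∘ φ`. -/
def IsCompositionOperator (φ : ℂ → ℂ) (C : Op H2) : Prop :=
  ∀ f : H2, ∀ z ∈ ball (0 : ℂ) 1, val (C f) z = val f (φ z)

/-- The spectrum of a bounded operator. -/
def opSpectrum {E : Type} [NormedAddCommGroup E] [NormedSpace ℂ E] (C : Op E) :
    Set ℂ := spectrum ℂ C

/-- `A` is invertible modulo the compact operators. -/
def InvertibleModCompact {E : Type} [NormedAddCommGroup E] [NormedSpace ℂ E] (A : Op E) : Prop :=
  ∃ S : Op E, IsCompactOperator (fun x : E => S (A x) - x) ∧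
    IsCompactOperator (fun x : E => A (S x) - x)

/-- The essential spectrum of a bounded operator `C`: all `l` such that `C - l` is not invertible
modulo the compact operators, i.e. the spectrum of the image of `C` in the Calkin algebra. -/
def essentialSpectrum {E : Type} [NormedAddCommGroup E] [NormedSpace ℂ E] (C : Op E) : Set ℂ :=
  {l : ℂ | ¬ InvertibleModCompact (C - l • ContinuousLinearMap.id ℂ E)}

/-- The Schroeder eigenvalues `φ'(ω)^n`, `n ≥ 1`. -/
def schroederValues (φ : ℂ → ℂ) (ω : ℂ) : Set ℂ := {μ : ℂ | ∃ n : ℕ, 1 ≤ n ∧ μ = (deriv φ ω) ^ n}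

theorem radius_le {d : ℂ} {r s : ℝ} (hr : 0 ≤ r)
    (h : closedBall (0 : ℂ) s ∪ {μ : ℂ | ∃ n : ℕ, 1 ≤ n ∧ μ = d ^ n} ∪ {1} ⊆
      closedBall (0 : ℂ) r ∪ {μ : ℂ | ∃ n : ℕ, 1 ≤ n ∧ μ = d ^ n} ∪ {1}) : s ≤ r := by
  by_contra hcon
  push Not at hcon
  obtain ⟨l, hl, -, hlS⟩ := Helper156.Ess.exists_good d
    (U := {l : ℂ | r < ‖l‖} ∩ {l : ℂ | ‖l‖ < s})
    ((isOpen_lt continuous_const continuous_norm).inter
      (isOpen_lt continuous_norm continuous_const)) (by
      refine ⟨(((r + s) / 2 : ℝ) : ℂ), ?_, ?_⟩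
      · show r < ‖(((r + s) / 2 : ℝ) : ℂ)‖
        rw [Complex.norm_real, Real.norm_of_nonneg (by linarith)]
        linarith
      · show ‖(((r + s) / 2 : ℝ) : ℂ)‖ < s
        rw [Complex.norm_real, Real.norm_of_nonneg (by linarith)]
        linarith)
  have h1 : l ∈ closedBall (0 : ℂ) s ∪ {μ : ℂ | ∃ n : ℕ, 1 ≤ n ∧ μ = d ^ n} ∪ {1} :=
    Or.inl (Or.inl (mem_closedBall_zero_iff.2 (le_of_lt hl.2)))
  rcases h h1 with (h2 | ⟨n, -, hn⟩) | h2
  · exact absurd (mem_closedBall_zero_iff.1 h2) (not_le.2 hl.1)
  · exact hlS n hn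
  · exact hlS 0 (by rw [pow_zero]; exact h2)

/-- The spectrum of `C` is the closed disc of radius `r` with the Schroeder values and `1`. -/
def SpectrumIsDisc (φ : ℂ → ℂ) (ω : ℂ) (C : Op H2) (r : ℝ) : Prop :=
  opSpectrum C = closedBall (0 : ℂ) r ∪ schroederValues φ ω ∪ {1}

/-- **Answer to Q1 (yes), in a stronger form.**  Let `φ` be an analytic self-map of the unit disc which is not
a conformal automorphism and fixes a point `ω` of the disc.  There is exactly one bounded operator `C` on `H²`
with `C f = f ∘ φ`.  Whenever its spectrum is the closed disc of radius `r ≥ 0` together with the Schroeder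
eigenvalues and `1`, its essential spectrum is the closed disc of radius `r`; and the spectrum always has
this form for some `r ≥ 0`. -/
theorem result (φ : ℂ → ℂ) (ω : ℂ) (hφ : DifferentiableOn ℂ φ (ball (0 : ℂ) 1))
    (hmaps : MapsTo φ (ball (0 : ℂ) 1) (ball (0 : ℂ) 1))
    (hna : ¬ BijOn φ (ball (0 : ℂ) 1) (ball (0 : ℂ) 1))
    (hω : ω ∈ ball (0 : ℂ) 1) (hfix : φ ω = ω) :
    (∃! C : Op H2, IsCompositionOperator φ C) ∧
    ∀ C : Op H2, IsCompositionOperator φ C →
      (∀ r : ℝ, 0 ≤ r → SpectrumIsDisc φ ω C r → essentialSpectrum C = closedBall (0 : ℂ) r) ∧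
      ∃ r : ℝ, 0 ≤ r ∧ SpectrumIsDisc φ ω C r ∧ essentialSpectrum C = closedBall (0 : ℂ) r := by
  have hω' : ‖ω‖ < 1 := mem_ball_zero_iff.1 hω
  refine ⟨?_, fun C hC => ?_⟩
  · obtain ⟨C, hC⟩ := Helper156.Ess.exists_comp hφ hmaps
    refine ⟨C, fun f z hz => hC f z hz, fun C' hC' => ?_⟩
    apply ContinuousLinearMap.ext
    intro f
    apply Helper156.Ess.ev_injective
    intro z hz
    exact (hC' f z hz).trans (hC f z hz).symm
  · obtain ⟨r, hr0, h1, h2⟩ := Helper156.Ess.final hφ hmaps hω' hfix hna C (fun f z hz => hC f z hz)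
    have h2' : opSpectrum C = closedBall (0 : ℂ) r ∪ {μ : ℂ | ∃ n : ℕ, 1 ≤ n ∧ μ = (deriv φ ω) ^ n} ∪ {1} := h2
    have h1' : essentialSpectrum C = closedBall (0 : ℂ) r := h1
    refine ⟨fun s hs hspec => ?_, r, hr0, h2', h1'⟩
    have hspec : opSpectrum C = closedBall (0 : ℂ) s ∪
      {μ : ℂ | ∃ n : ℕ, 1 ≤ n ∧ μ = (deriv φ ω) ^ n} ∪ {1} := hspec
    have h3 : r = s := by
      apply le_antisymm
      · exact radius_le hs (by rw [← h2', hspec])
      · exact radius_le hr0 (by rw [← h2', hspec])
    rw [← h3]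
    exact h1'

end Pool.Agent.Results.MP_246dfd_an.SpectraAreDiscs
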